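import Mathlib
import Pool.Agent.H514R3.Fin

/-!
# From a positive definite sequence that is negative on `R` to an ergodic system
-/

set_option autoImplicit false
open MeasureTheory Filter Topology Finset ProbabilityTheory

namespace Pool.Agent.Y254.NR
open Pool.Agent.H514R3

lemma pd_zero_nonneg {r : ℕ → ℝ} (hr : PD r) : 0 ≤ r 0 := by
  have h := hr 1 (fun _ => 1)
  have e : lag 0 0 = 0 := by unfold lag; simp
  simpa [e] using h

/-- If a positive definite sequence is at most `-ε` on `R`, then some ergodic system and some set of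
positive measure show that `R` is not a set of ergodic nice recurrence. (The proof is the second half
of `Pool.Agent.H514R3.core`.) -/
theorem core_pd (r : ℕ → ℝ) (hr : PD r) {ε : ℝ} (hε : 0 < ε) (R : Set ℕ) (hR : ∀ n ∈ R, r n ≤ -ε) :
    ∃ (Y : Type) (_ : MeasurableSpace Y) (ν : Measure Y) (_ : IsProbabilityMeasure ν) (S : Y → Y) (B : Set Y),
      Ergodic S ν ∧ MeasurableSet B ∧ 0 < ν B ∧ ∃ ε' : ℝ, 0 < ε' ∧
        ∀ n ∈ R, (ν (B ∩ S^[n] ⁻¹' B)).toReal ≤ (ν B).toReal ^ 2 - ε' := by
  have hR0 : ∀ n ∈ R, n ≠ 0 := by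
    intro n hn h0
    have h1 := hR n hn
    rw [h0] at h1
    have h2 := pd_zero_nonneg hr
    linarith
  obtain ⟨σ, hσf, hσ0, hσ⟩ := herglotz r hr
  obtain ⟨F, c, τ, hF, hc, hτf, hτa, hτ0, hsum⟩ := split σ hσ0 (show 0 < ε / 4 by positivity)
  set rc : ℕ → ℝ := fun n => ∫ x, Real.cos (n * x) ∂τ with hrc
  have hle : ∀ n ∈ R, (∑ s ∈ F, c s * Real.cos (n * s)) + rc n ≤ - ε + ε / 4 := by
    intro n hn
    have h1 := hsum n
    rw [← hσ n] at h1
    have h2 := hR n hn
    simp only [hrc]
    linarith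
  obtain ⟨γ, hγp, hγ⟩ := exists_gauss_of_meas τ
  have hγ' : HasCov γ (fun j k => rc (lag j k)) := hγ
  have hwm : WM γ := by
    apply wm_gauss γ rc hγ'
    · refine ⟨τ.real Set.univ, fun n => ?_⟩
      have := norm_integral_le_of_norm_le_const (μ := τ) (C := 1) (f := fun x : ℝ => Real.cos (n * x))
        (Filter.Eventually.of_forall fun x => by rw [Real.norm_eq_abs]; exact Real.abs_cos_le_one _)
      rw [Real.norm_eq_abs, one_mul] at this
      exact this
    · exact wiener_abs rc (wiener τ hτa hτ0)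
  obtain ⟨d, hdm, hdb, hdc⟩ := exists_rot hF c hc
  have herg1 : Ergodic (Prod.map (fun x : HT F => gg F * x) sh) ((hm F).prod γ) := erg_prod (erg_rot F) hwm
  set T1 : HT F × (ℕ → ℝ) → HT F × (ℕ → ℝ) := Prod.map (fun x : HT F => gg F * x) sh with hT1
  set P := (hm F).prod γ with hP
  let W : HT F × (ℕ → ℝ) → ℝ := fun z => d z.1 + z.2 0
  have hWm : Measurable W := (hdm.comp measurable_fst).add ((measurable_pi_apply 0).comp measurable_snd)
  obtain ⟨C, hC⟩ := hdb
  have hdL : MemLp d 2 (hm F) := MemLp.of_bound hdm.aestronglyMeasurable C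
    (Filter.Eventually.of_forall fun x => by rw [Real.norm_eq_abs]; exact hC x)
  have hfst : MeasurePreserving (Prod.fst : HT F × (ℕ → ℝ) → HT F) P (hm F) := measurePreserving_fst
  have hsnd : MeasurePreserving (Prod.snd : HT F × (ℕ → ℝ) → (ℕ → ℝ)) P γ := measurePreserving_snd
  have hWL : MemLp W 2 P := (hdL.comp_measurePreserving hfst).add ((coord_memLp hγ' 0).comp_measurePreserving hsnd)
  have hWW : ∀ n, ∫ z, W z * W (T1^[n] z) ∂P = (∑ s ∈ F, c s * Real.cos (n * s)) + rc n := by
    intro n
    have hdn : MemLp (fun x => d ((fun x : HT F => gg F * x)^[n] x)) 2 (hm F) :=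
      hdL.comp_measurePreserving ((erg_rot F).toMeasurePreserving.iterate n)
    have e : ∀ z, W z * W (T1^[n] z) = d z.1 * d ((fun x : HT F => gg F * x)^[n] z.1) * 1 + d z.1 * z.2 n
        + (d ((fun x : HT F => gg F * x)^[n] z.1) * z.2 0) + 1 * (z.2 0 * z.2 n) := by
      intro z
      rw [hT1, prodmap_iter]
      simp only [W, sh_iter, zero_add]
      ring
    simp_rw [e]
    have m1 : MemLp (fun z : HT F × (ℕ → ℝ) => d z.1) 2 P := hdL.comp_measurePreserving hfst
    have m2 : MemLp (fun z : HT F × (ℕ → ℝ) => d ((fun x : HT F => gg F * x)^[n] z.1)) 2 P := hdn.comp_measurePreserving hfst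
    have m3 : MemLp (fun z : HT F × (ℕ → ℝ) => z.2 0) 2 P := (coord_memLp hγ' 0).comp_measurePreserving hsnd
    have m4 : MemLp (fun z : HT F × (ℕ → ℝ) => z.2 n) 2 P := (coord_memLp hγ' n).comp_measurePreserving hsnd
    have j1 : Integrable (fun z : HT F × (ℕ → ℝ) => d z.1 * d ((fun x : HT F => gg F * x)^[n] z.1) * 1) P := by
      have : Integrable (fun z : HT F × (ℕ → ℝ) => d z.1 * d ((fun x : HT F => gg F * x)^[n] z.1)) P := m1.integrable_mul m2
      exact this.mul_const 1
    have j2 : Integrable (fun z : HT F × (ℕ → ℝ) => d z.1 * z.2 n) P := m1.integrable_mul m4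
    have j3 : Integrable (fun z : HT F × (ℕ → ℝ) => d ((fun x : HT F => gg F * x)^[n] z.1) * z.2 0) P := m2.integrable_mul m3
    have j4 : Integrable (fun z : HT F × (ℕ → ℝ) => 1 * (z.2 0 * z.2 n)) P := by
      have : Integrable (fun z : HT F × (ℕ → ℝ) => z.2 0 * z.2 n) P := m3.integrable_mul m4
      exact this.const_mul 1
    have j12 : Integrable (fun z : HT F × (ℕ → ℝ) => d z.1 * d ((fun x : HT F => gg F * x)^[n] z.1) * 1 + d z.1 * z.2 n) P := j1.add j2
    have j123 : Integrable (fun z : HT F × (ℕ → ℝ) => d z.1 * d ((fun x : HT F => gg F * x)^[n] z.1) * 1 + d z.1 * z.2 n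
      + d ((fun x : HT F => gg F * x)^[n] z.1) * z.2 0) P := j12.add j3
    rw [integral_add j123 j4, integral_add j12 j3, integral_add j1 j2]
    rw [hP, integral_prod_mul (f := fun x : HT F => d x * d ((fun x : HT F => gg F * x)^[n] x)) (g := fun _ : ℕ → ℝ => (1:ℝ)),
      integral_prod_mul (f := fun x : HT F => d x) (g := fun w : ℕ → ℝ => w n),
      integral_prod_mul (f := fun x : HT F => d ((fun x : HT F => gg F * x)^[n] x)) (g := fun w : ℕ → ℝ => w 0),
      integral_prod_mul (f := fun _ : HT F => (1:ℝ)) (g := fun w : ℕ → ℝ => w 0 * w n),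
      hdc n, coord_mean hγ', coord_mean hγ', coord_cov hγ']
    have l1 : lag 0 n = n := by unfold lag; omega
    have l2 : lag n 0 = n := by unfold lag; omega
    rw [l1, l2]
    simp
  obtain ⟨K, hK1, hK⟩ := exists_clip herg1.toMeasurePreserving W hWm hWL (show 0 < ε / 4 by positivity)
  have hK0 : (0:ℝ) < K := by linarith
  have hqm : Measurable fun z => clip K (W z) := (clip_cont K).measurable.comp hWm
  let V : HT F × (ℕ → ℝ) → ℝ := fun z => 1/2 + clip K (W z) / (4 * K)
  have hVm : Measurable V := (hqm.div_const _).const_add _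
  have hqb : ∀ z, |clip K (W z) / (4 * K)| ≤ 1/4 := by
    intro z
    rw [abs_div, abs_of_pos (show (0:ℝ) < 4 * K by positivity), div_le_iff₀ (by positivity)]
    have := clip_abs hK0.le (W z)
    linarith
  have hV0 : ∀ z, 1/4 ≤ V z := by
    intro z
    have := (abs_le.1 (hqb z)).1
    show 1/4 ≤ 1/2 + clip K (W z) / (4 * K)
    linarith
  have hV0' : ∀ z, 0 ≤ V z := fun z => le_trans (by norm_num) (hV0 z)
  have hV1 : ∀ z, V z ≤ 1 := by
    intro z
    have := (abs_le.1 (hqb z)).2
    show 1/2 + clip K (W z) / (4 * K) ≤ 1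
    linarith
  have hqi : Integrable (fun z => clip K (W z)) P :=
    Integrable.mono' (g := fun _ => K) (integrable_const _) hqm.aestronglyMeasurable
      (Filter.Eventually.of_forall fun z => by rw [Real.norm_eq_abs]; exact clip_abs hK0.le _)
  set m := ∫ z, clip K (W z) ∂P with hmdef
  have hVint : ∫ z, V z ∂P = 1/2 + m / (4 * K) := by
    show ∫ z, (1/2 + clip K (W z) / (4 * K)) ∂P = _
    rw [integral_add (integrable_const _) (hqi.div_const _), integral_div (4 * K) (fun z => clip K (W z))]
    simp [hmdef]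
  have herg2 : Ergodic (Prod.map T1 sh) (P.prod noi) := erg_prod herg1 (wm_iid uni)
  refine ⟨(HT F × (ℕ → ℝ)) × (ℕ → ℝ), inferInstance, P.prod noi, inferInstance, Prod.map T1 sh, BB V, herg2,
    BB_meas hVm, ?_, ε / (32 * K^2), by positivity, ?_⟩
  · have h1 : ((P.prod noi) (BB V)).toReal = ∫ z, V z ∂P := BB_measure hVm hV0' hV1
    have hVi : Integrable V P := (integrable_const _).add (hqi.div_const _)
    have h2 : (1/4 : ℝ) ≤ ∫ z, V z ∂P := by
      have := integral_mono (μ := P) (integrable_const (1/4 : ℝ)) hVi hV0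
      simpa using this
    have h3 : 0 < ((P.prod noi) (BB V)).toReal := by rw [h1]; linarith
    exact (ENNReal.toReal_pos_iff.1 h3).1
  · intro n hn
    have hn0 := hR0 n hn
    have h1 : ((P.prod noi) (BB V)).toReal = 1/2 + m / (4 * K) := by
      rw [BB_measure hVm hV0' hV1, hVint]
    rw [BB_corr herg1.toMeasurePreserving hVm hV0' hV1 n hn0, h1]
    have hTn := herg1.toMeasurePreserving.iterate n
    have hqni : Integrable (fun z => clip K (W (T1^[n] z))) P := hTn.integrable_comp_of_integrable hqi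
    have hqqi : Integrable (fun z => clip K (W z) * clip K (W (T1^[n] z))) P := by
      refine Integrable.mono' (g := fun _ => K * K) (integrable_const _)
        (hqm.mul (hqm.comp hTn.measurable)).aestronglyMeasurable (Filter.Eventually.of_forall fun z => ?_)
      rw [Real.norm_eq_abs, abs_mul]
      exact mul_le_mul (clip_abs hK0.le _) (clip_abs hK0.le _) (abs_nonneg _) hK0.le
    have hmn : ∫ z, clip K (W (T1^[n] z)) ∂P = m := int_comp hTn (f := fun z => clip K (W z)) hqi.aestronglyMeasurable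
    have e : ∀ z, V z * V (T1^[n] z) = (1/4 + (1/(8*K)) * clip K (W z)) + ((1/(8*K)) * clip K (W (T1^[n] z))
        + (1/(16*K^2)) * (clip K (W z) * clip K (W (T1^[n] z)))) := by
      intro z
      show (1/2 + clip K (W z) / (4 * K)) * (1/2 + clip K (W (T1^[n] z)) / (4 * K)) = _
      field_simp
      ring
    simp_rw [e]
    have a1 : Integrable (fun z => (1/4 + (1/(8*K)) * clip K (W z))) P := (integrable_const _).add (hqi.const_mul _)
    have a2 : Integrable (fun z => ((1/(8*K)) * clip K (W (T1^[n] z))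
        + (1/(16*K^2)) * (clip K (W z) * clip K (W (T1^[n] z))))) P := (hqni.const_mul _).add (hqqi.const_mul _)
    rw [integral_add a1 a2, integral_add (integrable_const _) (hqi.const_mul _),
      integral_add (hqni.const_mul _) (hqqi.const_mul _), integral_const_mul, integral_const_mul, integral_const_mul, hmn]
    have hcn : ∫ z, clip K (W z) * clip K (W (T1^[n] z)) ∂P ≤ - ε / 2 := by
      have h2 := hK n
      rw [hWW n] at h2
      have h3 := hle n hn
      linarith
    set cn := ∫ z, clip K (W z) * clip K (W (T1^[n] z)) ∂P with hcndef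
    have hm2 : m = ∫ z, clip K (W z) ∂P := rfl
    simp only [integral_const, probReal_univ, one_smul]
    rw [← hm2]
    have h5 : (1/2 + m / (4 * K))^2 = 1/4 + (1/(8*K)) * m + (1/(8*K)) * m + (1/(16*K^2)) * m^2 := by
      field_simp; ring
    rw [h5]
    have h6 : (1/(16*K^2)) * cn ≤ (1/(16*K^2)) * (-ε/2) := by gcongr
    have h7 : (1/(16*K^2)) * (-ε/2) = - (ε / (32*K^2)) := by field_simp; ring
    have h8 : 0 ≤ (1/(16*K^2)) * m^2 := by positivity
    linarith


end Pool.Agent.Y254.NR
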