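import Mathlib
import Pool.Agent.H514R3.Herg

/-!
# Positive definite sequences: Hilbert space isometries, integrals, residues
-/

set_option autoImplicit false
open MeasureTheory Filter Topology Finset

namespace Pool.Agent.Y254.NR
open Pool.Agent.H514R3

lemma lag_comm (j k : ℕ) : lag j k = lag k j := by unfold lag; omega

lemma lag_of_le {j k : ℕ} (h : j ≤ k) : lag j k = k - j := by unfold lag; omega

section Hilbert
variable {𝕜 H : Type*} [RCLike 𝕜] [NormedAddCommGroup H] [InnerProductSpace 𝕜 H]

lemma inner_iter (U : H →ₗᵢ[𝕜] H) (n : ℕ) (x y : H) : inner 𝕜 (U^[n] x) (U^[n] y) = inner 𝕜 x y := by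
  induction n with
  | zero => simp
  | succ n ih => rw [Function.iterate_succ_apply', Function.iterate_succ_apply', U.inner_map_map, ih]

lemma re_inner_lag (U : H →ₗᵢ[𝕜] H) (x : H) (j k : ℕ) :
    RCLike.re (inner 𝕜 x (U^[lag j k] x)) = RCLike.re (inner 𝕜 (U^[j] x) (U^[k] x)) := by
  rcases le_total j k with h | h
  · rw [lag_of_le h]
    have e : U^[k] x = U^[j] (U^[k - j] x) := by
      rw [← Function.iterate_add_apply]; congr 2; omega
    rw [e, inner_iter]
  · rw [lag_comm, lag_of_le h]
    have e : U^[j] x = U^[k] (U^[j - k] x) := by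
      rw [← Function.iterate_add_apply]; congr 2; omega
    rw [e, inner_iter, ← inner_conj_symm, RCLike.conj_re]

/-- the correlation sequence of a vector under an isometry is positive definite -/
theorem pd_isometry (U : H →ₗᵢ[𝕜] H) (x : H) : PD (fun n => RCLike.re (inner 𝕜 x (U^[n] x))) := by
  intro N a
  have e : ∑ j ∈ range N, ∑ k ∈ range N, a j * a k * RCLike.re (inner 𝕜 x (U^[lag j k] x))
      = RCLike.re (inner 𝕜 (∑ j ∈ range N, (a j : 𝕜) • U^[j] x) (∑ k ∈ range N, (a k : 𝕜) • U^[k] x)) := by
    rw [sum_inner, map_sum]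
    refine Finset.sum_congr rfl fun j _ => ?_
    rw [inner_sum, map_sum]
    refine Finset.sum_congr rfl fun k _ => ?_
    rw [inner_smul_left, inner_smul_right, RCLike.conj_ofReal, RCLike.re_ofReal_mul, RCLike.re_ofReal_mul,
      re_inner_lag]
    ring
  rw [e]
  exact inner_self_nonneg

/-- subtracting an orthogonal fixed vector -/
theorem re_inner_split (U : H →ₗᵢ[𝕜] H) (x v : H) (hv : U v = v) (ho : inner 𝕜 v (x - v) = (0 : 𝕜)) (n : ℕ) :
    RCLike.re (inner 𝕜 x (U^[n] x)) = ‖v‖ ^ 2 + RCLike.re (inner 𝕜 (x - v) (U^[n] (x - v))) := by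
  have hvn : U^[n] v = v := by
    induction n with
    | zero => simp
    | succ n ih => rw [Function.iterate_succ_apply', ih, hv]
  have hadd : U^[n] x = U^[n] (x - v) + v := by
    have h1 : ∀ (m : ℕ) (p q : H), U^[m] (p + q) = U^[m] p + U^[m] q := by
      intro m p q
      induction m with
      | zero => simp
      | succ m ih => simp only [Function.iterate_succ_apply', ih, map_add]
    calc U^[n] x = U^[n] ((x - v) + v) := by rw [sub_add_cancel]
      _ = U^[n] (x - v) + U^[n] v := h1 _ _ _
      _ = _ := by rw [hvn]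
  have h1 : inner 𝕜 v (U^[n] (x - v)) = (0 : 𝕜) := by
    have h2 := inner_iter U n v (x - v)
    rw [hvn] at h2
    rw [h2, ho]
  have h2 : inner 𝕜 (x - v) v = (0 : 𝕜) := by
    rw [← inner_conj_symm, ho, map_zero]
  have h3 : inner 𝕜 x (U^[n] x) = inner 𝕜 v v + inner 𝕜 (x - v) (U^[n] (x - v)) := by
    conv_lhs => rw [hadd]
    rw [inner_add_right]
    have e1 : inner 𝕜 x (U^[n] (x - v)) = inner 𝕜 (x - v) (U^[n] (x - v)) + inner 𝕜 v (U^[n] (x - v)) := by
      rw [← inner_add_left, sub_add_cancel]
    have e2 : inner 𝕜 x v = inner 𝕜 (x - v) v + inner 𝕜 v v := by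
      rw [← inner_add_left, sub_add_cancel]
    rw [e1, e2, h1, h2]
    ring
  rw [h3, map_add, inner_self_eq_norm_sq]

end Hilbert

/-- integrals of positive definite sequences -/
theorem pd_integral {Z : Type*} [MeasurableSpace Z] (σ : Measure Z) [IsFiniteMeasure σ] (φ : Z → ℕ → ℝ)
    (hm : ∀ n, Integrable (fun z => φ z n) σ) (hpd : ∀ z, PD (φ z)) : PD (fun n => ∫ z, φ z n ∂σ) := by
  intro N a
  have e : ∑ j ∈ range N, ∑ k ∈ range N, a j * a k * ∫ z, φ z (lag j k) ∂σ
      = ∫ z, ∑ j ∈ range N, ∑ k ∈ range N, a j * a k * φ z (lag j k) ∂σ := by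
    rw [integral_finsetSum]
    · refine Finset.sum_congr rfl fun j _ => ?_
      rw [integral_finsetSum]
      · refine Finset.sum_congr rfl fun k _ => ?_
        rw [integral_const_mul]
      · intro k _; exact (hm _).const_mul _
    · intro j _; exact integrable_finsetSum _ fun k _ => (hm _).const_mul _
  rw [e]
  exact integral_nonneg fun z => hpd z N a

lemma pd_add {r s : ℕ → ℝ} (hr : PD r) (hs : PD s) : PD (fun n => r n + s n) := by
  intro N a
  have h := add_nonneg (hr N a) (hs N a)
  have e : ∑ j ∈ range N, ∑ k ∈ range N, a j * a k * (r (lag j k) + s (lag j k))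
      = (∑ j ∈ range N, ∑ k ∈ range N, a j * a k * r (lag j k))
        + ∑ j ∈ range N, ∑ k ∈ range N, a j * a k * s (lag j k) := by
    rw [← Finset.sum_add_distrib]
    refine Finset.sum_congr rfl fun j _ => ?_
    rw [← Finset.sum_add_distrib]
    exact Finset.sum_congr rfl fun k _ => by ring
  rw [e]; exact h

lemma pd_smul {r : ℕ → ℝ} (hr : PD r) {c : ℝ} (hc : 0 ≤ c) : PD (fun n => c * r n) := by
  intro N a
  have h := mul_nonneg hc (hr N a)
  have e : ∑ j ∈ range N, ∑ k ∈ range N, a j * a k * (c * r (lag j k))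
      = c * ∑ j ∈ range N, ∑ k ∈ range N, a j * a k * r (lag j k) := by
    rw [Finset.mul_sum]
    refine Finset.sum_congr rfl fun j _ => ?_
    rw [Finset.mul_sum]
    exact Finset.sum_congr rfl fun k _ => by ring
  rw [e]; exact h

lemma dvd_lag_iff (M j k : ℕ) (hM : 0 < M) : M ∣ lag j k ↔ j % M = k % M := by
  unfold lag
  rw [← Int.natCast_dvd_natCast, Int.dvd_natAbs, ← Int.modEq_iff_dvd]
  constructor
  · intro h
    have h2 : (k : ℤ) % M = j % M := h
    exact_mod_cast h2.symm
  · intro h
    show (k : ℤ) % M = j % M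
    exact_mod_cast h.symm

/-- cutting a positive definite sequence down to the multiples of `M` -/
theorem pd_residue {r : ℕ → ℝ} (hr : PD r) {M : ℕ} (hM : 0 < M) :
    PD (fun n => if M ∣ n then r n else 0) := by
  intro N a
  have e : ∑ j ∈ range N, ∑ k ∈ range N, a j * a k * (if M ∣ lag j k then r (lag j k) else 0)
      = ∑ c ∈ range M, ∑ j ∈ range N, ∑ k ∈ range N,
        (if j % M = c then a j else 0) * (if k % M = c then a k else 0) * r (lag j k) := by
    symm
    rw [Finset.sum_comm]
    refine Finset.sum_congr rfl fun j _ => ?_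
    rw [Finset.sum_comm]
    refine Finset.sum_congr rfl fun k _ => ?_
    have hk : ∀ c ∈ range M, (if j % M = c then a j else 0) * (if k % M = c then a k else 0) * r (lag j k)
        = if c = j % M then (if k % M = j % M then a j * a k * r (lag j k) else 0) else 0 := by
      intro c _
      by_cases h1 : j % M = c
      · subst h1
        by_cases h2 : k % M = j % M
        · simp [h2]
        · simp [h2]
      · have h1' : c ≠ j % M := fun h => h1 h.symm
        simp [h1, h1']
    rw [Finset.sum_congr rfl hk, Finset.sum_ite_eq', if_pos (Finset.mem_range.2 (Nat.mod_lt _ hM))]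
    by_cases h : k % M = j % M
    · rw [if_pos h, if_pos ((dvd_lag_iff M j k hM).2 h.symm)]
    · rw [if_neg h, if_neg (fun hd => h ((dvd_lag_iff M j k hM).1 hd).symm)]
      ring
  rw [e]
  exact Finset.sum_nonneg fun c _ => hr N _

/-- the Fourier transform of the uniform probability on the nontrivial `M`-th roots of unity -/
theorem pd_roots {M : ℕ} (hM : 0 < M) : PD (fun n => (if M ∣ n then (1:ℝ) else 0) - 1 / M) := by
  intro N a
  have hMR : (0:ℝ) < M := by exact_mod_cast hM
  set s : ℕ → ℝ := fun c => ∑ j ∈ range N, if j % M = c then a j else 0 with hs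
  have e1 : ∑ j ∈ range N, ∑ k ∈ range N, a j * a k * (if M ∣ lag j k then (1:ℝ) else 0)
      = ∑ c ∈ range M, s c ^ 2 := by
    have e : ∀ c, s c ^ 2 = ∑ j ∈ range N, ∑ k ∈ range N,
        (if j % M = c then a j else 0) * (if k % M = c then a k else 0) := by
      intro c
      rw [sq, hs, Finset.sum_mul_sum]
    simp_rw [e]
    symm
    rw [Finset.sum_comm]
    refine Finset.sum_congr rfl fun j _ => ?_
    rw [Finset.sum_comm]
    refine Finset.sum_congr rfl fun k _ => ?_
    have hk : ∀ c ∈ range M, (if j % M = c then a j else 0) * (if k % M = c then a k else 0)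
        = if c = j % M then (if k % M = j % M then a j * a k else 0) else 0 := by
      intro c _
      by_cases h1 : j % M = c
      · subst h1
        by_cases h2 : k % M = j % M
        · simp [h2]
        · simp [h2]
      · have h1' : c ≠ j % M := fun h => h1 h.symm
        simp [h1, h1']
    rw [Finset.sum_congr rfl hk, Finset.sum_ite_eq', if_pos (Finset.mem_range.2 (Nat.mod_lt _ hM))]
    by_cases h : k % M = j % M
    · rw [if_pos h, if_pos ((dvd_lag_iff M j k hM).2 h.symm)]; ring
    · rw [if_neg h, if_neg (fun hd => h ((dvd_lag_iff M j k hM).1 hd).symm)]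
      ring
  have e2 : ∑ j ∈ range N, ∑ k ∈ range N, a j * a k * (1 / (M:ℝ)) = (∑ c ∈ range M, s c) ^ 2 / M := by
    have h1 : ∑ c ∈ range M, s c = ∑ j ∈ range N, a j := by
      rw [hs, Finset.sum_comm]
      refine Finset.sum_congr rfl fun j _ => ?_
      rw [Finset.sum_ite_eq, if_pos (Finset.mem_range.2 (Nat.mod_lt _ hM))]
    rw [h1, sq, Finset.sum_mul_sum, Finset.sum_div]
    refine Finset.sum_congr rfl fun j _ => ?_
    rw [Finset.sum_div]
    exact Finset.sum_congr rfl fun k _ => by ring
  have e3 : ∑ j ∈ range N, ∑ k ∈ range N, a j * a k * ((if M ∣ lag j k then (1:ℝ) else 0) - 1 / M)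
      = (∑ c ∈ range M, s c ^ 2) - (∑ c ∈ range M, s c) ^ 2 / M := by
    rw [← e1, ← e2, ← Finset.sum_sub_distrib]
    refine Finset.sum_congr rfl fun j _ => ?_
    rw [← Finset.sum_sub_distrib]
    exact Finset.sum_congr rfl fun k _ => by ring
  rw [e3, sub_nonneg, div_le_iff₀ hMR]
  have h := sq_sum_le_card_mul_sum_sq (s := range M) (f := s)
  rw [Finset.card_range] at h
  linarith

end Pool.Agent.Y254.NR
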