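import Mathlib
import Pool.Agent.Y254.NR.Pos

/-!
# Positive definite sequences, convex combinations of cosines and measures on the circle
-/

set_option autoImplicit false
open MeasureTheory Filter Topology Finset
open scoped BoundedContinuousFunction

namespace Pool.Agent.Y254.NR
open Pool.Agent.H514R3

/-- every positive definite sequence is nearly nonnegative somewhere on `R` -/
def PDN (R : Set ℕ) : Prop := ∀ r : ℕ → ℝ, PD r → ∀ ε : ℝ, 0 < ε → ∃ n ∈ R, -ε < r n

lemma pd_cos (x : ℝ) : PD (fun n => Real.cos (n * x)) := by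
  intro N a
  have e : ∑ j ∈ range N, ∑ k ∈ range N, a j * a k * Real.cos ((lag j k : ℕ) * x)
      = (∑ j ∈ range N, a j * Real.cos (j * x)) ^ 2 + (∑ j ∈ range N, a j * Real.sin (j * x)) ^ 2 := by
    rw [sq, sq, Finset.sum_mul_sum, Finset.sum_mul_sum, ← Finset.sum_add_distrib]
    refine Finset.sum_congr rfl fun j _ => ?_
    rw [← Finset.sum_add_distrib]
    refine Finset.sum_congr rfl fun k _ => ?_
    have h1 : Real.cos ((lag j k : ℕ) * x) = Real.cos (j * x - k * x) := by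
      rw [← Real.cos_abs (j * x - k * x), ← sub_mul, abs_mul, ← Real.cos_abs ((lag j k : ℕ) * x), abs_mul]
      congr 2
      have : ((lag j k : ℕ) : ℝ) = |(j:ℝ) - k| := by
        unfold lag
        rw [Nat.cast_natAbs]
        push_cast
        rfl
      rw [this, abs_abs]
    rw [h1, Real.cos_sub]
    ring
  rw [e]
  positivity

/-- the cosines as bounded continuous functions -/
noncomputable def cosb (n : ℕ) : ℝ →ᵇ ℝ :=
  BoundedContinuousFunction.ofNormedAddCommGroup (fun x => Real.cos (n * x)) (by fun_prop) 1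
    (fun x => by rw [Real.norm_eq_abs]; exact Real.abs_cos_le_one _)

lemma cosb_apply (n : ℕ) (x : ℝ) : cosb n x = Real.cos (n * x) := rfl

/-- convex combinations of the cosines `cos (n x)`, `n ∈ R`, that are at least `-ε` -/
theorem cos_of_pdN {R : Set ℕ} (h : PDN R) (ε : ℝ) (hε : 0 < ε) :
    ∃ (F : Finset ℕ) (a : ℕ → ℝ), (∀ n ∈ F, n ∈ R) ∧ (∀ n, 0 ≤ a n) ∧ ∑ n ∈ F, a n = 1 ∧
      ∀ x : ℝ, -ε ≤ ∑ n ∈ F, a n * Real.cos (n * x) := by
  by_contra hcon
  let S : Set (ℕ →₀ ℝ) := {a | (∀ n, 0 ≤ a n) ∧ (∀ n, n ∉ R → a n = 0) ∧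
    Finsupp.linearCombination ℝ (fun _ : ℕ => (1:ℝ)) a = 1}
  have hS : Convex ℝ S := by
    intro a ha b hb p q hp hq hpq
    refine ⟨fun n => ?_, fun n hn => ?_, ?_⟩
    · simp only [Finsupp.add_apply, Finsupp.smul_apply, smul_eq_mul]
      have := ha.1 n; have := hb.1 n
      positivity
    · simp only [Finsupp.add_apply, Finsupp.smul_apply, smul_eq_mul, ha.2.1 n hn, hb.2.1 n hn]
      ring
    · rw [map_add, map_smul, map_smul, ha.2.2, hb.2.2, smul_eq_mul, smul_eq_mul, mul_one, mul_one, hpq]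
  let L : (ℕ →₀ ℝ) →ₗ[ℝ] (ℝ →ᵇ ℝ) := Finsupp.linearCombination ℝ cosb
  have hLapp : ∀ (a : ℕ →₀ ℝ) (x : ℝ), L a x = ∑ n ∈ a.support, a n * Real.cos (n * x) := by
    intro a x
    show (Finsupp.linearCombination ℝ cosb a) x = _
    rw [Finsupp.linearCombination_apply, Finsupp.sum]
    rw [BoundedContinuousFunction.sum_apply]
    rfl
  let O : Set (ℝ →ᵇ ℝ) := {g | ∃ δ : ℝ, 0 < δ ∧ ∀ x, -ε + δ ≤ g x}
  have hO : Convex ℝ O := by
    rintro g ⟨δ, hδ, hg⟩ g' ⟨δ', hδ', hg'⟩ p q hp hq hpq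
    refine ⟨min δ δ', lt_min hδ hδ', fun x => ?_⟩
    have h1 := hg x
    have h2 := hg' x
    simp only [BoundedContinuousFunction.coe_add, BoundedContinuousFunction.coe_smul, Pi.add_apply,
      smul_eq_mul]
    have h3 : -ε + min δ δ' ≤ g x := by have := min_le_left δ δ'; linarith
    have h4 : -ε + min δ δ' ≤ g' x := by have := min_le_right δ δ'; linarith
    calc -ε + min δ δ' = p * (-ε + min δ δ') + q * (-ε + min δ δ') := by rw [← add_mul, hpq, one_mul]
      _ ≤ p * g x + q * g' x := by gcongr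
  have hOo : IsOpen O := by
    rw [Metric.isOpen_iff]
    rintro g ⟨δ, hδ, hg⟩
    refine ⟨δ / 2, by positivity, fun g' hg' => ⟨δ / 2, by positivity, fun x => ?_⟩⟩
    have h1 : dist (g' x) (g x) ≤ dist g' g := BoundedContinuousFunction.dist_coe_le_dist x
    have h2 : dist g' g < δ / 2 := hg'
    rw [Real.dist_eq] at h1
    have h3 := (abs_le.1 (h1.trans h2.le)).1
    have h4 := hg x
    linarith
  have hdisj : Disjoint O (L '' S) := by
    rw [Set.disjoint_left]
    rintro _ ⟨δ, hδ, hg⟩ ⟨a, ha, rfl⟩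
    refine hcon ⟨a.support, a, fun n hn => ?_, ha.1, ?_, fun x => ?_⟩
    · by_contra hnR
      exact (Finsupp.mem_support_iff.1 hn) (ha.2.1 n hnR)
    · have h1 := ha.2.2
      rw [Finsupp.linearCombination_apply, Finsupp.sum] at h1
      simpa using h1
    · have h1 := hg x
      rw [hLapp] at h1
      linarith
  obtain ⟨f, u, hf1, hf2⟩ := geometric_hahn_banach_open hO hOo (hS.linear_image L) hdisj
  have h0 : (0 : ℝ →ᵇ ℝ) ∈ O := ⟨ε, hε, fun x => by simp⟩
  have hu : 0 < u := by have := hf1 0 h0; simpa using this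
  have hneg : ∀ φ : ℝ →ᵇ ℝ, (∀ x, 0 ≤ φ x) → f φ ≤ 0 := by
    intro φ hφ
    by_contra hpos
    push Not at hpos
    have h1 : ((u / f φ) • φ : ℝ →ᵇ ℝ) ∈ O := by
      refine ⟨ε, hε, fun x => ?_⟩
      simp only [BoundedContinuousFunction.coe_smul, smul_eq_mul, neg_add_cancel]
      exact mul_nonneg (by positivity) (hφ x)
    have h2 := hf1 _ h1
    rw [map_smul, smul_eq_mul, div_mul_cancel₀ _ hpos.ne'] at h2
    exact lt_irrefl _ h2
  have hpd : PD (fun n => -f (cosb n)) := by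
    intro N a
    have e : ∑ j ∈ range N, ∑ k ∈ range N, a j * a k * -f (cosb (lag j k))
        = -f (∑ j ∈ range N, ∑ k ∈ range N, (a j * a k) • cosb (lag j k)) := by
      rw [map_sum, ← Finset.sum_neg_distrib]
      refine Finset.sum_congr rfl fun j _ => ?_
      rw [map_sum, ← Finset.sum_neg_distrib]
      refine Finset.sum_congr rfl fun k _ => ?_
      rw [map_smul, smul_eq_mul]
      ring
    rw [e, neg_nonneg]
    apply hneg
    intro x
    have h1 := pd_cos x N a
    rw [BoundedContinuousFunction.sum_apply]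
    refine h1.trans_eq (Finset.sum_congr rfl fun j _ => ?_)
    rw [BoundedContinuousFunction.sum_apply]
    rfl
  obtain ⟨n, hn, hlt⟩ := h _ hpd u hu
  have h1 : cosb n ∈ L '' S := by
    refine ⟨Finsupp.single n 1, ⟨fun m => ?_, fun m hm => ?_, ?_⟩, ?_⟩
    · by_cases hmn : n = m
      · subst hmn; simp
      · simp [Finsupp.single_eq_of_ne (Ne.symm hmn)]
    · have hmn : n ≠ m := fun h => hm (h ▸ hn)
      simp [Finsupp.single_eq_of_ne (Ne.symm hmn)]
    · simp
    · show Finsupp.linearCombination ℝ cosb (Finsupp.single n 1) = _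
      simp
  have h2 := hf2 _ h1
  linarith

/-- a positive definite sequence against a convex combination of cosines that is at least `-ε` -/
theorem exists_of_cos {r : ℕ → ℝ} (hr : PD r) {ε : ℝ} {F : Finset ℕ} {a : ℕ → ℝ} (ha : ∀ n, 0 ≤ a n)
    (hsum : ∑ n ∈ F, a n = 1) (hx : ∀ x : ℝ, -ε ≤ ∑ n ∈ F, a n * Real.cos (n * x)) :
    ∃ n ∈ F, -(ε * r 0) ≤ r n := by
  obtain ⟨σ, hσf, _, hσ⟩ := herglotz r hr
  set M := σ.real Set.univ with hM
  have hr0 : r 0 = M := by
    rw [hσ 0]; simp [hM]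
  have hi : ∀ n : ℕ, Integrable (fun x : ℝ => Real.cos (n * x)) σ := fun n =>
    Integrable.mono' (g := fun _ => (1:ℝ)) (integrable_const _)
      (by fun_prop : Continuous fun x : ℝ => Real.cos (n * x)).aestronglyMeasurable
      (Filter.Eventually.of_forall fun x => by rw [Real.norm_eq_abs]; exact Real.abs_cos_le_one _)
  have h2 : ∑ n ∈ F, a n * r n = ∫ x, ∑ n ∈ F, a n * Real.cos (n * x) ∂σ := by
    rw [integral_finsetSum]
    · refine Finset.sum_congr rfl fun n _ => ?_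
      rw [integral_const_mul, ← hσ n]
    · intro n _; exact (hi n).const_mul _
  have h3 : ∫ _x : ℝ, -ε ∂σ ≤ ∫ x, ∑ n ∈ F, a n * Real.cos (n * x) ∂σ :=
    integral_mono (integrable_const _) (integrable_finsetSum _ fun n _ => (hi n).const_mul _) hx
  rw [integral_const, smul_eq_mul, ← h2, ← hM] at h3
  by_contra hcon
  push Not at hcon
  have hex : ∃ n ∈ F, 0 < a n := by
    by_contra hno
    push Not at hno
    have h4 : ∑ n ∈ F, a n ≤ 0 := Finset.sum_nonpos hno
    linarith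
  obtain ⟨m, hmF, hm⟩ := hex
  have h1 : ∑ n ∈ F, a n * r n < ∑ n ∈ F, a n * -(ε * r 0) := by
    refine Finset.sum_lt_sum (fun n hn => mul_le_mul_of_nonneg_left (hcon n hn).le (ha n)) ⟨m, hmF, ?_⟩
    exact mul_lt_mul_of_pos_left (hcon m hmF) hm
  rw [← Finset.sum_mul, hsum, one_mul, hr0] at h1
  nlinarith

theorem pdN_of_cos {R : Set ℕ} (h : ∀ ε : ℝ, 0 < ε →
    ∃ (F : Finset ℕ) (a : ℕ → ℝ), (∀ n ∈ F, n ∈ R) ∧ (∀ n, 0 ≤ a n) ∧ ∑ n ∈ F, a n = 1 ∧
      ∀ x : ℝ, -ε ≤ ∑ n ∈ F, a n * Real.cos (n * x)) : PDN R := by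
  intro r hr ε hε
  have h0 : 0 ≤ r 0 := by
    have h := hr 1 (fun _ => 1)
    have e : lag 0 0 = 0 := by unfold lag; simp
    simpa [e] using h
  obtain ⟨F, a, hF, ha, hsum, hx⟩ := h (ε / (r 0 + 1)) (by positivity)
  obtain ⟨n, hn, hle⟩ := exists_of_cos hr ha hsum hx
  refine ⟨n, hF n hn, ?_⟩
  have h4 : ε / (r 0 + 1) * r 0 < ε := by
    rw [div_mul_eq_mul_div, div_lt_iff₀ (by positivity)]
    nlinarith
  linarith

lemma four_re (y : ℝ) (n : ℕ) :
    (fourier (n : ℤ) (y : UnitAddCircle)).re = Real.cos (n * (2 * Real.pi * y)) := by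
  rw [fourier_coe_apply]
  have : 2 * (Real.pi : ℂ) * Complex.I * ((n : ℤ) : ℂ) * (y : ℂ) / ((1 : ℝ) : ℂ)
      = ((n * (2 * Real.pi * y) : ℝ) : ℂ) * Complex.I := by push_cast; ring
  rw [this, Complex.exp_ofReal_mul_I_re]

lemma pd_circle (z : UnitAddCircle) : PD (fun n => (fourier (n : ℤ) z).re) := by
  induction z using QuotientAddGroup.induction_on with
  | H y =>
    have h := pd_cos (2 * Real.pi * y)
    have e : (fun n : ℕ => (fourier (n : ℤ) (y : UnitAddCircle)).re)
        = fun n : ℕ => Real.cos (n * (2 * Real.pi * y)) := by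
      funext n
      exact four_re y n
    exact e ▸ h

lemma four_cont (n : ℕ) : Continuous fun z : UnitAddCircle => (fourier (n : ℤ) z).re :=
  Complex.continuous_re.comp (fourier (n : ℤ)).continuous

lemma circle_int (σ : Measure UnitAddCircle) [IsFiniteMeasure σ] (n : ℕ) :
    Integrable (fun z : UnitAddCircle => (fourier (n : ℤ) z).re) σ := by
  refine Integrable.mono' (g := fun _ => (1:ℝ)) (integrable_const _)
    (four_cont n).aestronglyMeasurable (Filter.Eventually.of_forall fun z => ?_)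
  rw [Real.norm_eq_abs]
  refine (Complex.abs_re_le_norm _).trans ?_
  rw [fourier_apply, Circle.norm_coe]

theorem meas_of_pdN {R : Set ℕ} (h : PDN R) (σ : Measure UnitAddCircle) [IsFiniteMeasure σ] (ε : ℝ) (hε : 0 < ε) :
    ∃ n ∈ R, (σ {0}).toReal - ε < ∫ z : UnitAddCircle, (fourier (n : ℤ) z).re ∂σ := by
  have hpd := pd_integral (σ.restrict {0}ᶜ) (fun (z : UnitAddCircle) n => (fourier (n : ℤ) z).re)
    (fun n => circle_int _ n) pd_circle
  obtain ⟨n, hn, hlt⟩ := h _ hpd ε hε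
  refine ⟨n, hn, ?_⟩
  have h1 := integral_add_compl (μ := σ) (s := {(0 : UnitAddCircle)}) (measurableSet_singleton _) (circle_int σ n)
  have h2 : ∫ z in {(0 : UnitAddCircle)}, (fourier (n : ℤ) z).re ∂σ = (σ {0}).toReal := by
    rw [integral_singleton]
    simp [measureReal_def]
  rw [← h1, h2]
  linarith

theorem pdN_of_meas {R : Set ℕ} (h : ∀ (σ : Measure UnitAddCircle) [IsFiniteMeasure σ] (ε : ℝ), 0 < ε →
    ∃ n ∈ R, (σ {0}).toReal - ε < ∫ z : UnitAddCircle, (fourier (n : ℤ) z).re ∂σ) : PDN R := by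
  intro r hr ε hε
  obtain ⟨σ, hσf, _, hσ⟩ := herglotz r hr
  have hme : Measurable (fun x : ℝ => ((x / (2 * Real.pi) : ℝ) : UnitAddCircle)) :=
    ((AddCircle.continuous_mk' (1:ℝ)).comp (continuous_id.div_const _)).measurable
  obtain ⟨n, hn, hlt⟩ := h (σ.map (fun x : ℝ => ((x / (2 * Real.pi) : ℝ) : UnitAddCircle))) ε hε
  refine ⟨n, hn, ?_⟩
  rw [integral_map hme.aemeasurable (four_cont n).aestronglyMeasurable] at hlt
  simp only [four_re] at hlt
  have e : ∀ x : ℝ, (n : ℝ) * (2 * Real.pi * (x / (2 * Real.pi))) = n * x := fun x => by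
    field_simp
  simp only [e] at hlt
  rw [hσ n]
  have h0 : 0 ≤ ((σ.map (fun x : ℝ => ((x / (2 * Real.pi) : ℝ) : UnitAddCircle))) {0}).toReal :=
    ENNReal.toReal_nonneg
  linarith

/-- a set with the property `PDN` keeps it after intersection with `k ℕ` and removal of a finite set -/
theorem pdN_refine {R : Set ℕ} (h0 : 0 ∉ R) (h : PDN R) {k : ℕ} (hk : 0 < k) {F : Set ℕ} (hF : F.Finite) :
    PDN ({n | n ∈ R ∧ k ∣ n} \ F) := by
  intro r hr ε hε
  by_contra hcon
  push Not at hcon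
  obtain ⟨M, hM⟩ := hF.bddAbove
  set N := k * (M + 1) with hN
  have hN0 : 0 < N := by positivity
  have hNR : (0:ℝ) < N := by exact_mod_cast hN0
  have hpd := pd_add (pd_roots hN0) (pd_smul (pd_residue hr hN0) (show 0 ≤ 1 / ε by positivity))
  obtain ⟨n, hn, hlt⟩ := h _ hpd (1 / N) (by positivity)
  by_cases hd : N ∣ n
  · simp only [if_pos hd] at hlt
    have hn0 : 0 < n := Nat.pos_of_ne_zero fun e => h0 (e ▸ hn)
    have hle : N ≤ n := Nat.le_of_dvd hn0 hd
    have hnF : n ∉ F := fun hf => by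
      have h1 : n ≤ M := hM hf
      have h2 : M + 1 ≤ N := by rw [hN]; exact Nat.le_mul_of_pos_left _ hk
      omega
    have h1 := hcon n ⟨⟨hn, (Dvd.intro _ rfl : k ∣ N).trans hd⟩, hnF⟩
    have h2 : 1 / ε * r n ≤ -1 := by
      rw [one_div, inv_mul_le_iff₀ hε]
      linarith
    linarith
  · simp only [if_neg hd] at hlt
    linarith

end Pool.Agent.Y254.NR
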