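import Mathlib
import Pool.Agent.Y254.NR.Dual

/-!
# Koopman operators: from positive definite sequences to measure preserving systems
-/

set_option autoImplicit false
open MeasureTheory Filter Topology Finset

namespace Pool.Agent.Y254.NR
open Pool.Agent.H514R3

section Koop
variable {X : Type*} [MeasurableSpace X] {μ : Measure X} {T : X → X}

lemma koop_iter (𝕜 : Type*) [RCLike 𝕜] (hT : MeasurePreserving T μ μ) (x : Lp 𝕜 2 μ) (n : ℕ) :
    ⇑((Lp.compMeasurePreservingₗᵢ 𝕜 T hT)^[n] x) =ᵐ[μ] fun z => x (T^[n] z) := by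
  induction n with
  | zero => exact Filter.EventuallyEq.refl _ _
  | succ n ih =>
    rw [Function.iterate_succ_apply']
    have h1 : ⇑(Lp.compMeasurePreserving T hT ((Lp.compMeasurePreservingₗᵢ 𝕜 T hT)^[n] x)) =ᵐ[μ]
        ⇑((Lp.compMeasurePreservingₗᵢ 𝕜 T hT)^[n] x) ∘ T := Lp.coeFn_compMeasurePreserving _ hT
    have h2 : ⇑((Lp.compMeasurePreservingₗᵢ 𝕜 T hT)^[n] x) ∘ T =ᵐ[μ] (fun z => x (T^[n] z)) ∘ T :=
      hT.quasiMeasurePreserving.ae_eq_comp ih
    have h3 : ⇑((Lp.compMeasurePreservingₗᵢ 𝕜 T hT) ((Lp.compMeasurePreservingₗᵢ 𝕜 T hT)^[n] x)) =ᵐ[μ]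
        (fun z => x (T^[n] z)) ∘ T := h1.trans h2
    refine h3.trans (Filter.Eventually.of_forall fun z => ?_)
    simp only [Function.comp_apply, Function.iterate_succ_apply]

lemma inner_koop (𝕜 : Type*) [RCLike 𝕜] (hT : MeasurePreserving T μ μ) {f g : X → 𝕜} (hf : MemLp f 2 μ)
    (hg : MemLp g 2 μ) (n : ℕ) :
    inner 𝕜 (hf.toLp f) ((Lp.compMeasurePreservingₗᵢ 𝕜 T hT)^[n] (hg.toLp g))
      = ∫ z, g (T^[n] z) * (starRingEnd 𝕜) (f z) ∂μ := by
  rw [L2.inner_def]
  apply integral_congr_ae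
  have h2 : (fun z => (hg.toLp g) (T^[n] z)) =ᵐ[μ] fun z => g (T^[n] z) :=
    (hT.iterate n).quasiMeasurePreserving.ae_eq_comp hg.coeFn_toLp
  filter_upwards [hf.coeFn_toLp, koop_iter 𝕜 hT (hg.toLp g) n, h2] with z h1 h3 h4
  rw [h1, h3, h4]
  rfl

/-- the correlation sequence of a square integrable function is the square of the norm of its
conditional expectation on the invariant sets plus a positive definite sequence -/
theorem koop_decomp [IsProbabilityMeasure μ] (hT : MeasurePreserving T μ μ) (f : X → ℝ) (hf : MemLp f 2 μ) :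
    ∃ r : ℕ → ℝ, PD r ∧ ∀ n, ∫ x, f x * f (T^[n] x) ∂μ
      = ∫ x, ((μ[f | MeasurableSpace.invariants T]) x) ^ 2 ∂μ + r n := by
  have hle := MeasurableSpace.invariants_le T
  set e : X → ℝ := μ[f | MeasurableSpace.invariants T] with he
  have hesm : StronglyMeasurable[MeasurableSpace.invariants T] e := stronglyMeasurable_condExp
  have heT : e ∘ T = e := MeasurableSpace.comp_eq_of_measurable_invariants hesm.measurable
  have heL : MemLp e 2 μ := hf.condExp (by norm_num)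
  have hfi : Integrable f μ := hf.integrable (by norm_num)
  have hef : Integrable (e * f) μ := heL.integrable_mul hf
  have hint : ∫ x, e x * f x ∂μ = ∫ x, e x * e x ∂μ := by
    have h1 := condExp_mul_of_stronglyMeasurable_left hesm hef hfi
    calc ∫ x, e x * f x ∂μ = ∫ x, (μ[e * f | MeasurableSpace.invariants T]) x ∂μ := by
          rw [integral_condExp hle]; rfl
      _ = ∫ x, e x * e x ∂μ := integral_congr_ae h1
  set U := Lp.compMeasurePreservingₗᵢ (E := ℝ) (p := 2) ℝ T hT with hU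
  have hn0 : ∀ {a b : X → ℝ} (ha : MemLp a 2 μ) (hb : MemLp b 2 μ),
      inner ℝ (ha.toLp a) (hb.toLp b) = ∫ z, a z * b z ∂μ := by
    intro a b ha hb
    have h1 := inner_koop ℝ hT ha hb 0
    simp only [Function.iterate_zero, id_eq] at h1
    rw [h1]
    refine integral_congr_ae (Filter.Eventually.of_forall fun z => ?_)
    simp [mul_comm]
  have hUV : U (heL.toLp e) = heL.toLp e := by
    show Lp.compMeasurePreserving T hT (heL.toLp e) = _
    rw [Lp.toLp_compMeasurePreserving]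
    apply MemLp.toLp_congr
    rw [heT]
  have ho : inner ℝ (heL.toLp e) (hf.toLp f - heL.toLp e) = (0:ℝ) := by
    rw [inner_sub_right, hn0, hn0, hint, sub_self]
  refine ⟨_, pd_isometry U (hf.toLp f - heL.toLp e), fun n => ?_⟩
  have h1 := re_inner_split U (hf.toLp f) (heL.toLp e) hUV ho n
  rw [inner_koop ℝ hT hf hf n] at h1
  have h2 : ‖heL.toLp e‖ ^ 2 = ∫ x, e x ^ 2 ∂μ := by
    rw [← real_inner_self_eq_norm_sq, hn0]
    exact integral_congr_ae (Filter.Eventually.of_forall fun z => (sq (e z)).symm)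
  have h3 : RCLike.re (∫ z, f (T^[n] z) * (starRingEnd ℝ) (f z) ∂μ) = ∫ x, f x * f (T^[n] x) ∂μ := by
    rw [RCLike.re_to_real]
    exact integral_congr_ae (Filter.Eventually.of_forall fun z => by simp [mul_comm])
  rw [h3, h2] at h1
  exact h1

/-- the uniform conditional form of nice recurrence for square integrable functions, for a finite set
`F` that carries a convex combination of cosines which is at least `-ε` -/
theorem cond_of_cos [IsProbabilityMeasure μ] (hT : MeasurePreserving T μ μ)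
    (f : X → ℝ) (hf : MemLp f 2 μ) {ε : ℝ} (hε : 0 < ε) {F : Finset ℕ} {a : ℕ → ℝ} (ha : ∀ n, 0 ≤ a n)
    (hsum : ∑ n ∈ F, a n = 1) (hx : ∀ x : ℝ, -ε ≤ ∑ n ∈ F, a n * Real.cos (n * x)) :
    ∃ n ∈ F, ∫ x, ((μ[f | MeasurableSpace.invariants T]) x) ^ 2 ∂μ - ε * ∫ x, f x ^ 2 ∂μ
      ≤ ∫ x, f x * f (T^[n] x) ∂μ := by
  obtain ⟨r, hr, hrn⟩ := koop_decomp hT f hf
  obtain ⟨n, hn, hle⟩ := exists_of_cos hr ha hsum hx
  refine ⟨n, hn, ?_⟩
  have h0 := hrn 0
  have e0 : ∫ x, f x * f (T^[0] x) ∂μ = ∫ x, f x ^ 2 ∂μ := by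
    simp only [Function.iterate_zero, id_eq, sq]
  rw [e0] at h0
  have h1 : 0 ≤ ∫ x, ((μ[f | MeasurableSpace.invariants T]) x) ^ 2 ∂μ := integral_nonneg fun x => sq_nonneg _
  have h2 : ε * r 0 ≤ ε * ∫ x, f x ^ 2 ∂μ := by gcongr; linarith
  rw [hrn n]
  linarith

/-- the set form follows from the conditional form -/
theorem sq_measure_le_condExp [IsProbabilityMeasure μ] (T : X → X) {A : Set X}
    (hA : MeasurableSet A) :
    (μ A).toReal ^ 2 ≤ ∫ x, ((μ[A.indicator (fun _ => (1:ℝ)) | MeasurableSpace.invariants T]) x) ^ 2 ∂μ := by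
  have hle := MeasurableSpace.invariants_le T
  have hfL : MemLp (A.indicator (fun _ => (1:ℝ))) 2 μ := (memLp_const _).indicator hA
  set e : X → ℝ := μ[A.indicator (fun _ => (1:ℝ)) | MeasurableSpace.invariants T] with he
  have heL : MemLp e 2 μ := hfL.condExp (by norm_num)
  have h1 : ∫ x, e x ∂μ = (μ A).toReal := by
    rw [he, integral_condExp hle, integral_indicator hA]
    simp [measureReal_def]
  have hei : Integrable e μ := heL.integrable (by norm_num)
  have h2 : 0 ≤ ∫ x, (e x - (μ A).toReal) ^ 2 ∂μ := integral_nonneg fun x => sq_nonneg _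
  have h3 : ∫ x, (e x - (μ A).toReal) ^ 2 ∂μ = ∫ x, e x ^ 2 ∂μ - (μ A).toReal ^ 2 := by
    have e1 : ∀ x, (e x - (μ A).toReal) ^ 2 = (e x ^ 2 - 2 * (μ A).toReal * e x) + (μ A).toReal ^ 2 :=
      fun x => by ring
    simp_rw [e1]
    have i0 : Integrable (fun x => e x ^ 2) μ := heL.integrable_sq
    have i1 : Integrable (fun x => 2 * (μ A).toReal * e x) μ := hei.const_mul _
    have i2 : Integrable (fun x => e x ^ 2 - 2 * (μ A).toReal * e x) μ := i0.sub i1
    rw [integral_add i2 (integrable_const _), integral_sub i0 i1, integral_const_mul, h1]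
    simp
    ring
  linarith

/-- `μ (A ∩ T⁻ⁿ A)` as an integral -/
lemma int_inter [IsProbabilityMeasure μ] (hT : MeasurePreserving T μ μ) {A : Set X} (hA : MeasurableSet A)
    (n : ℕ) :
    ∫ x, A.indicator (fun _ => (1:ℝ)) x * A.indicator (fun _ => (1:ℝ)) (T^[n] x) ∂μ
      = (μ (A ∩ T^[n] ⁻¹' A)).toReal := by
  have h1 : ∀ x, A.indicator (fun _ => (1:ℝ)) x * A.indicator (fun _ => (1:ℝ)) (T^[n] x)
      = (A ∩ T^[n] ⁻¹' A).indicator (fun _ => (1:ℝ)) x := by
    intro x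
    by_cases hx : x ∈ A
    · by_cases hy : T^[n] x ∈ A
      · rw [Set.indicator_of_mem hx, Set.indicator_of_mem hy,
          Set.indicator_of_mem (show x ∈ A ∩ T^[n] ⁻¹' A from ⟨hx, hy⟩), one_mul]
      · rw [Set.indicator_of_notMem hy,
          Set.indicator_of_notMem (show x ∉ A ∩ T^[n] ⁻¹' A from fun h => hy h.2), mul_zero]
    · rw [Set.indicator_of_notMem hx,
        Set.indicator_of_notMem (show x ∉ A ∩ T^[n] ⁻¹' A from fun h => hx h.1), zero_mul]
  simp_rw [h1]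
  rw [integral_indicator (hA.inter ((hT.iterate n).measurable hA))]
  simp [measureReal_def]

/-- the set form follows from the Hilbert space form for one Koopman operator -/
theorem nice_of_hilbert [IsProbabilityMeasure μ] (hT : MeasurePreserving T μ μ) {A : Set X}
    (hA : MeasurableSet A) {R : Set ℕ} {ε : ℝ}
    (h : ∀ (U : Lp ℂ 2 μ →ₗᵢ[ℂ] Lp ℂ 2 μ) (x v : Lp ℂ 2 μ), U v = v →
      (∀ w, U w = w → inner ℂ w (x - v) = (0:ℂ)) → ∃ n ∈ R, ‖v‖ ^ 2 - ε < (inner ℂ x (U^[n] x) : ℂ).re) :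
    ∃ n ∈ R, (μ A).toReal ^ 2 - ε < (μ (A ∩ T^[n] ⁻¹' A)).toReal := by
  set U := Lp.compMeasurePreservingₗᵢ (E := ℂ) (p := 2) ℂ T hT with hU
  have hf : MemLp (A.indicator (fun _ => (1:ℂ))) 2 μ := (memLp_const _).indicator hA
  have h1L : MemLp (fun _ : X => (1:ℂ)) 2 μ := memLp_const _
  let K : Submodule ℂ (Lp ℂ 2 μ) := (U.toContinuousLinearMap : Lp ℂ 2 μ →L[ℂ] Lp ℂ 2 μ).eqLocus
    (1 : Lp ℂ 2 μ →L[ℂ] Lp ℂ 2 μ)
  have hKmem : ∀ w, w ∈ K ↔ U w = w := fun w => Iff.rfl
  set x := hf.toLp (A.indicator (fun _ => (1:ℂ))) with hx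
  set v := K.starProjection x with hv
  have hvK : U v = v := (hKmem v).1 (Submodule.starProjection_apply_mem K x)
  have hort : ∀ w, U w = w → inner ℂ w (x - v) = (0:ℂ) := by
    intro w hw
    have h2 := K.sub_starProjection_mem_orthogonal x
    exact (Submodule.mem_orthogonal K _).1 h2 w ((hKmem w).2 hw)
  obtain ⟨n, hn, hlt⟩ := h U x v hvK hort
  refine ⟨n, hn, ?_⟩
  have e1 : (inner ℂ x (U^[n] x) : ℂ).re = (μ (A ∩ T^[n] ⁻¹' A)).toReal := by
    rw [hx, hU, inner_koop ℂ hT hf hf n, ← int_inter hT hA n]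
    have e2 : ∀ z, A.indicator (fun _ => (1:ℂ)) (T^[n] z) * (starRingEnd ℂ) (A.indicator (fun _ => (1:ℂ)) z)
        = ((A.indicator (fun _ => (1:ℝ)) z * A.indicator (fun _ => (1:ℝ)) (T^[n] z) : ℝ) : ℂ) := by
      intro z
      by_cases h1 : z ∈ A
      · by_cases h2 : T^[n] z ∈ A
        · simp [h1, h2]
        · simp [h1, h2]
      · simp [h1]
    simp_rw [e2]
    rw [integral_complex_ofReal, Complex.ofReal_re]
  have hone : U (h1L.toLp _) = h1L.toLp _ := by
    show Lp.compMeasurePreserving T hT (h1L.toLp _) = _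
    rw [Lp.toLp_compMeasurePreserving]
    rfl
  have e3 : inner ℂ (h1L.toLp _) x = (((μ A).toReal : ℝ) : ℂ) := by
    have h2 := inner_koop ℂ hT h1L hf 0
    simp only [Function.iterate_zero, id_eq, map_one, mul_one] at h2
    rw [h2]
    rw [integral_indicator hA]
    simp [measureReal_def]
  have e4 : inner ℂ (h1L.toLp _) v = (((μ A).toReal : ℝ) : ℂ) := by
    have h2 := hort _ hone
    rw [inner_sub_right, sub_eq_zero] at h2
    rw [← h2, e3]
  have e5 : ‖h1L.toLp (fun _ : X => (1:ℂ))‖ = 1 := by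
    rw [Lp.norm_toLp, eLpNorm_const _ (by norm_num) (IsProbabilityMeasure.ne_zero μ)]
    simp
  have e6 : (μ A).toReal ≤ ‖v‖ := by
    have h2 := norm_inner_le_norm (𝕜 := ℂ) (h1L.toLp (fun _ : X => (1:ℂ))) v
    rw [e4, e5, one_mul, Complex.norm_real, Real.norm_of_nonneg ENNReal.toReal_nonneg] at h2
    exact h2
  have e7 : (μ A).toReal ^ 2 ≤ ‖v‖ ^ 2 := by
    have : 0 ≤ (μ A).toReal := ENNReal.toReal_nonneg
    gcongr
  rw [e1] at hlt
  linarith

end Koop

end Pool.Agent.Y254.NR
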